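import Pool.Agent.Y173.KR.Main

/-! Iitaka's inequality for fibrations whose fibres are quotients of products `W × A` with `W`
arbitrary and many closed 1-forms along `A`. -/

set_option autoImplicit false
set_option linter.overlappingInstances false

open FF IntermediateField Pool.Agent.W619.TW Pool.Agent.W619.Y Pool.Agent.Y173.QA
  Pool.Agent.Y173.QM Pool.Agent.Y173.KR

namespace Pool.Agent.Results.MP_f72953_ag.IitakaProductFibres

/-- Let `B` and `W` be projective manifolds of dimensions `m` and `p` with function fields `M` and
`P`, `Z' → B` a dominant map with fibre dimension `f` and general fibre `A`, `Q` the function field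
of `Z'`, and `L` the function field of `Z = W × Z'` (`hdim`). Let `G` be a finite group of
birational automorphisms of `Z` over `B` (which need not respect the product), `E` a projective
manifold birational to `Z / G`, and `F` the general fibre of `E → B`, so `F` is birational to
`(W × A) / G`. Let `V` be a `G`-stable space of closed `1`-forms on the field `L`, regular along all
prime divisors over `Z`, some `f` of which are independent relative to the compositum of `M` and
`P`. Assume the condition of Reid-Tai type `ReidTaiFib` along `F`; there is no condition on the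
divisors which do not dominate `B`. Let `d` be the dimension of the space of rational vector fields
along `A` on which all forms in `V` are constant. Then

* `κ (E) ≥ κ (B) + κ (W) + f - d`,
* `κ (F) ≤ κ (W) + κ (A)`,
* if `d = 0`, or if `κ (A) ≤ f - d`, then Iitaka's inequality `κ (E) ≥ κ (B) + κ (F)` holds. -/
theorem result {k L : Type} [Field k] [CharZero k] [IsAlgClosed k] [Field L] [Algebra k L]
    [Algebra.EssFiniteType k L] {m p f : ℕ} (M P Q : IntermediateField k L)
    [Algebra.EssFiniteType k M] [Algebra.EssFiniteType k P] [Algebra.EssFiniteType k Q]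
    (hMQ : M ≤ Q) (hdim : Dim M P Q m p f) (G : Subgroup (L ≃ₐ[k] L)) [Finite G]
    (hG : M ≤ fixedField G) (V : Submodule k (Derivation k L L →ₗ[L] L))
    (hreg : ∀ θ ∈ V, IsRegForm (m + p + f) θ) (hcl : ∀ θ ∈ V, IsClosedForm θ)
    (hstab : ∀ g ∈ G, ∀ θ ∈ V, ∃ θ' ∈ V, IsImage g θ θ')
    (hgen : ∃ θ : Fin f → Derivation k L L →ₗ[L] L, (∀ i, θ i ∈ V) ∧
      IndepOver (m := m + p) (M ⊔ P) θ)
    (hRT : ReidTaiFib m p f G M P V) (d : ℕ)
    (hd : Module.finrank k (constFieldsOver (M ⊔ P) V) = d) :
    (∀ a b, KodTr k M m a → KodTr k P p b →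
        KodTr k (fixedField G) (m + p + f) (a + b + (f - d))) ∧
      (∀ c, KodTr M (extendScalars hG) (p + f) c →
        ∃ a b, c ≤ a + b ∧ KodTr k P p a ∧ KodTr M (extendScalars hMQ) f b) ∧
      ((constFieldsOver (M ⊔ P) V = ⊥ ∨ ∀ b, KodTr M (extendScalars hMQ) f b → b ≤ f - d) →
        ∀ a c, KodTr k M m a → KodTr M (extendScalars hG) (p + f) c →
          KodTr k (fixedField G) (m + p + f) (a + c)) := by
  obtain ⟨b, h1, h2, h3, h4⟩ := main hMQ hdim G hG V hreg hcl hstab hgen hRT
  have hb : f - d = b := by omega
  rw [hb]
  exact ⟨h2, h3, h4⟩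

end Pool.Agent.Results.MP_f72953_ag.IitakaProductFibres
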