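import Pool.Agent.Y192.KC.IitMain

/-!
MP_f72953_ag, Q1 (Iitaka's conjecture): fibrations of the covers `w j ^ e j = F j (t 0 ^ m, …, t n ^ m)`
of arbitrary projective varieties, `m` large.

A fibration `E → B` with `E` birational to a variety with function field `L` is given by an
intermediate field `M` of `L` over `ℂ` (the function field of `B`). `KodGe ℂ M b (fun _ => False) g`:
`κ(B) ≥ g`, where `b = dim B`. `KodGe M L e (fun _ => False) h`: `κ(F) ≥ h` for the generic, that is,
for the general, fibre `F`, of dimension `e` (the pluricanonical forms of `L` over `M` which are regular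
at all prime divisors of the generic fibre).
-/

set_option autoImplicit false

namespace Pool.Agent.Results.MP_f72953_ag.KummerFibrations

open Pool.Agent.W602.GT Pool.Agent.Y192.KC

/-- Let `Z` be any irreducible projective variety in `P^n`, not in a coordinate hyperplane, with the
homogeneous prime ideal `I`, let `F 1, …, F r` be forms which do not vanish on `Z`, and let
`e 1, …, e r` be positive numbers (there is no condition on the singularities of `Z` and of the
divisors `F j = 0`). There is a number `m0` with the following property. Let `m ≥ m0` be divisible by
the `e j`, and let `X` be any irreducible component, of dimension `d > 0`, of the projective variety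
with the equations `f (t 0 ^ m, …, t n ^ m) = 0`, `f ∈ I`, and
`w j ^ e j = F j (t 0 ^ m, …, t n ^ m)` in the weighted projective space with the homogeneous
coordinates `t i` and `w j`; `L` is the function field of `X`, and `t`, `w` are the coordinates of its
generic point. Let `E → B` be any dominant map with general fibre `F` from a projective manifold `E`
birational to `X`; `M` is the function field of `B`. If `κ(B) ≥ g ≥ 0` and `κ(F) ≥ h ≥ 0` then
`κ(E) ≥ g + h`; in fact `E` is of general type. So Iitaka's conjecture `κ(E) ≥ κ(F) + κ(B)` holds for
all fibrations `E → B` of all projective manifolds `E` which are birational to such covers `X`. -/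
theorem result {n r : ℕ} (X : ZCov n r) (hG : X.G = 1) :
    ∃ m0 : ℕ, ∀ m, m0 ≤ m → (∀ j, X.e j ∣ m) →
      ∀ (L : Type) [Field L] [Algebra ℂ L] (t : Fin (n + 1) → L) (w : Fin r → L),
      ZField X m L t w → ∀ d : ℕ, 1 ≤ d → Algebra.trdeg ℂ L = d →
      ∀ M : IntermediateField ℂ L, M.FG → ∀ b e : ℕ, Algebra.trdeg ℂ M = b →
      Algebra.trdeg M L = e → ∀ g h : ℕ, KodGe ℂ M b (fun _ => False) g →
      KodGe M L e (fun _ => False) h →
        GeneralType ℂ L d ∧ KodGe ℂ L d (fun _ => False) (g + h) :=
  iitaka_all X hG

end Pool.Agent.Results.MP_f72953_ag.KummerFibrations
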