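import Pool.Agent.Y174.RA.A7

/-!
MP_f72953_ag, Q1: subadditivity for fibre spaces (and pairs) such that the symmetric differentials on
the total space have no common zeros in the directions of the general fibre.
-/

set_option autoImplicit false

open Pool.Agent.W619.TW Pool.Agent.W619.Y Pool.Agent.W619.PQ Pool.Agent.Y174 FF

namespace Pool.Agent.Results.MP_f72953_ag.RelativeSymDifferentials

/-- Let `E → B` be a fibration of projective varieties with function fields `K` and `L`, `dim B = d`,
`dim E = d + s`, `s ≥ 1`, `Δ ≥ 0` a divisor on `E` with multiplicities `δ` at the prime divisors over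
`E`, and `Δ_B` a divisor on `B` with multiplicities `δB ≤ 1` such that `1 - e (1 - δB u) ≤ δ v` if `v`
lies over `u` with ramification index `e`; for instance `Δ = 0` and `Δ_B = 0`, or `Δ = 0` and `Δ_B` the
divisor of the orbifold base of `E → B`. Assume that the symmetric differentials of positive degrees of
`(E, Δ)` have no common zeros on the vectors tangent to the general fibres, at the geometric generic
point. Then `κ (K_E + Δ) ≥ κ (K_B + Δ_B)`. If `κ (K_F + Δ_F) ≤ 0` for the geometric generic fibre,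
then `κ (K_E + Δ) ≥ κ (K_F + Δ_F) + κ (K_B + Δ_B)`. -/
theorem result {L K Λ F : Type} [Field L] [Field K] [Field Λ] [Field F]
    -- the function fields of `B` and `E`
    [Algebra ℂ L] [Algebra ℂ K] [Algebra L K] [IsScalarTower ℂ L K]
    [Algebra.EssFiniteType ℂ L] [Algebra.EssFiniteType ℂ K] {d s : ℕ} (hs : 1 ≤ s)
    (hdB : Algebra.trdeg ℂ L = d) (hdE : Algebra.trdeg ℂ K = (d + s : ℕ))
    -- the geometric generic fibre
    [Algebra L Λ] [IsAlgClosure L Λ] [Algebra Λ F] [Algebra K F] [Algebra L F]
    [IsScalarTower L Λ F] [IsScalarTower L K F]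
    (hF : IntermediateField.adjoin Λ (Set.range (algebraMap K F)) = ⊤)
    -- the boundaries
    {δ : Place ℂ K → ℝ} {δB : Place ℂ L → ℝ} (hδ : ∀ v, 0 ≤ δ v) (hδB : ∀ u, δB u ≤ 1)
    (hle : ∀ (v : Place ℂ K) (u : Place ℂ L) (e : ℕ), LiesOn v u e → 1 - e * (1 - δB u) ≤ δ v)
    {δF : Place Λ F → ℝ} (hδF : IsPullFib δ δF)
    -- no common zeros along the fibres
    (h : NoBaseRel L (d + s) δ) :
    (∀ b, PairKod ℂ L d δB b → PairKod ℂ K (d + s) δ b) ∧
    (¬ PairKod Λ F s δF 1 → ∀ a b, PairKod Λ F s δF a → PairKod ℂ L d δB b →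
      PairKod ℂ K (d + s) δ (a + b)) := by
  have hL0 : CharZero L := charZero_of_injective_algebraMap (algebraMap ℂ L).injective
  have hΛ0 : CharZero Λ := charZero_of_injective_algebraMap (algebraMap L Λ).injective
  have h1 : ∀ b, PairKod ℂ L d δB b → PairKod ℂ K (d + s) δ b := fun b hb =>
    RA.main_rel ‹Algebra.EssFiniteType ℂ L› ‹Algebra.EssFiniteType ℂ K› hdB hdE hs hδ hδB hle h hb
  refine ⟨h1, fun hκ a b ha hb => ?_⟩
  rcases Nat.eq_zero_or_pos a with h0 | h0
  · subst h0
    rw [zero_add]
    exact h1 b hb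
  · exact absurd (RA.kod_le h0 ha) hκ

end Pool.Agent.Results.MP_f72953_ag.RelativeSymDifferentials
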